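import Mathlib

/-! Elementary facts on the roots of real quadratic and cubic polynomials used for principal
submatrices of omega-matrices. -/

namespace Pool.Agent.Y343.Tau

open Complex

/-- the sector of half-angle `π/6`. -/
theorem abs_arg_le_sixth {u : ℂ} (hx : 0 < u.re) (hy : 3 * u.im ^ 2 ≤ u.re ^ 2) :
    |arg u| ≤ Real.pi / 6 := by
  have hu : u ≠ 0 := by
    rintro rfl
    simp at hx
  rw [Complex.arg_of_re_nonneg hx.le, abs_le]
  have hn : 0 < ‖u‖ := norm_pos_iff.mpr hu
  have hsq : ‖u‖ ^ 2 = u.re ^ 2 + u.im ^ 2 := by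
    rw [Complex.sq_norm, Complex.normSq_apply]; ring
  have habs : |u.im / ‖u‖| ≤ 1 / 2 := by
    rw [abs_div, abs_of_pos hn, div_le_iff₀ hn]
    refine abs_le_of_sq_le_sq ?_ (by positivity)
    nlinarith
  rw [abs_le] at habs
  have hpi := Real.pi_pos
  constructor
  · have : Real.arcsin (-(1 / 2)) ≤ Real.arcsin (u.im / ‖u‖) := Real.arcsin_le_arcsin habs.1
    rwa [Real.arcsin_neg, ← Real.sin_pi_div_six, Real.arcsin_sin (by linarith) (by linarith)] at this
  · have : Real.arcsin (u.im / ‖u‖) ≤ Real.arcsin (1 / 2) := Real.arcsin_le_arcsin habs.2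
    rwa [← Real.sin_pi_div_six, Real.arcsin_sin (by linarith) (by linarith)] at this

/-- a nonzero root of `u^2 - s1 u + s2` with `s1, s2 ≥ 0` and `3 s2 ≤ s1^2` lies in the sector of
half-angle `π/6`. -/
theorem arg_quadratic {s1 s2 : ℝ} (h1 : 0 ≤ s1) (h2 : 0 ≤ s2) (h3 : 3 * s2 ≤ s1 ^ 2) {u : ℂ}
    (hu : u ≠ 0) (h : u ^ 2 - s1 * u + s2 = 0) : |arg u| ≤ Real.pi / 6 := by
  have hre := congrArg Complex.re h
  have him := congrArg Complex.im h
  simp [pow_two] at hre him
  have key : 0 < u.re ∧ 3 * u.im ^ 2 ≤ u.re ^ 2 := by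
    by_cases hy : u.im = 0
    · rw [hy] at hre ⊢
      have hx : u.re ≠ 0 := by
        intro hx
        exact hu (Complex.ext hx hy)
      refine ⟨?_, by nlinarith [sq_nonneg u.re]⟩
      rcases lt_or_gt_of_ne hx with hneg | hpos
      · exfalso
        nlinarith [mul_pos_of_neg_of_neg hneg hneg, mul_nonneg h1 (neg_nonneg.mpr hneg.le)]
      · exact hpos
    · have hx : u.re = s1 / 2 := by
        have : u.im * (2 * u.re - s1) = 0 := by linarith
        rcases mul_eq_zero.mp this with h0 | h0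
        · exact absurd h0 hy
        · linarith
      have hy2 : 0 < u.im ^ 2 := by positivity
      have hle : 3 * u.im ^ 2 ≤ u.re ^ 2 := by
        rw [hx] at hre ⊢
        nlinarith
      refine ⟨?_, hle⟩
      have h0 : 0 ≤ u.re := by rw [hx]; linarith
      have h1 : u.re ≠ 0 := by
        intro h0
        rw [h0] at hle
        nlinarith
      exact lt_of_le_of_ne h0 (Ne.symm h1)
  exact abs_arg_le_sixth key.1 key.2

/-- a nonzero root of `u^3 - e1 u^2 + e2 u - e3` with nonnegative coefficients,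
`e3 ≤ e1 e2`, strictly if `e2 > 0`, has positive real part. -/
theorem re_pos_cubic {e1 e2 e3 : ℝ} (h1 : 0 ≤ e1) (h2 : 0 ≤ e2) (h3 : 0 ≤ e3)
    (hle : e3 ≤ e1 * e2) (hlt : 0 < e2 → e3 < e1 * e2) {u : ℂ} (hu : u ≠ 0)
    (h : u ^ 3 - e1 * u ^ 2 + e2 * u - e3 = 0) : 0 < u.re := by
  obtain ⟨x, y⟩ := u
  have hre := congrArg Complex.re h
  have him := congrArg Complex.im h
  simp [pow_succ] at hre him
  show 0 < x
  by_cases hy : y = 0
  · subst hy
    have hx : x ≠ 0 := by
      rintro rfl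
      exact hu rfl
    by_contra hcon
    have hneg : x < 0 := lt_of_le_of_ne (not_lt.mp hcon) hx
    have hx2 : 0 < x * x := mul_pos_of_neg_of_neg hneg hneg
    have hx3 : x * x * x < 0 := mul_neg_of_pos_of_neg hx2 hneg
    have h5 : 0 ≤ e1 * (x * x) := mul_nonneg h1 hx2.le
    have h6 : e2 * x ≤ 0 := mul_nonpos_of_nonneg_of_nonpos h2 hneg.le
    nlinarith
  · have hy2 : 0 < y ^ 2 := by positivity
    have hY : y ^ 2 = 3 * x ^ 2 - 2 * e1 * x + e2 := by
      have : y * (y ^ 2 - (3 * x ^ 2 - 2 * e1 * x + e2)) = 0 := by linarith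
      rcases mul_eq_zero.mp this with h0 | h0
      · exact absurd h0 hy
      · linarith
    have hX : -8 * x ^ 3 + 8 * e1 * x ^ 2 - 2 * (e1 ^ 2 + e2) * x + (e1 * e2 - e3) = 0 := by
      linear_combination hre + (3 * x - e1) * hY
    by_contra hcon
    rcases eq_or_lt_of_le (not_lt.mp hcon) with h0 | hneg
    · subst h0
      have h4 : 0 < e2 := by nlinarith
      have := hlt h4
      nlinarith
    · have hx2 : 0 < x ^ 2 := by nlinarith
      have hx3 : x ^ 3 < 0 := by
        have : x ^ 3 = x ^ 2 * x := by ring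
        rw [this]
        exact mul_neg_of_pos_of_neg hx2 hneg
      have h5 : 0 ≤ e1 * x ^ 2 := mul_nonneg h1 hx2.le
      have h6 : (e1 ^ 2 + e2) * x ≤ 0 := mul_nonpos_of_nonneg_of_nonpos (by positivity) hneg.le
      nlinarith

/-- a real quadratic with negative constant term has a negative root -/
theorem neg_root {p q : ℝ} (hq : q < 0) : ∃ x : ℝ, x < 0 ∧ x ^ 2 - p * x + q = 0 := by
  have hD : 0 < p ^ 2 - 4 * q := by nlinarith [sq_nonneg p]
  have hs := Real.sq_sqrt hD.le
  have hlt : p < Real.sqrt (p ^ 2 - 4 * q) := by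
    apply Real.lt_sqrt_of_sq_lt
    linarith
  refine ⟨(p - Real.sqrt (p ^ 2 - 4 * q)) / 2, by linarith, ?_⟩
  nlinarith

end Pool.Agent.Y343.Tau
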