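import Mathlib

/-! The choice of the parameters of the family giving eigenvalues of large argument. -/

namespace Pool.Agent.Y343.Tau

open Complex Filter Topology

/-- a sufficient condition for `θ < |arg z|` in the lower half-plane -/
theorem lt_abs_arg {z : ℂ} {θ : ℝ} (h0 : 0 ≤ θ) (hpi : θ ≤ Real.pi) (him : z.im < 0)
    (h : 0 < -z.im * Real.cos θ - z.re * Real.sin θ) : θ < |arg z| := by
  have hz : z ≠ 0 := by
    rintro rfl
    simp at him
  have hn : 0 < ‖z‖ := norm_pos_iff.mpr hz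
  have harg : arg z < 0 := Complex.arg_neg_iff.mpr him
  have hlow : -Real.pi < arg z := Complex.neg_pi_lt_arg z
  have hs : ‖z‖ * Real.sin (arg z) = z.im := Complex.norm_mul_sin_arg z
  have hc : ‖z‖ * Real.cos (arg z) = z.re := Complex.norm_mul_cos_arg z
  rw [abs_of_neg harg]
  by_contra hcon
  have h1 : Real.sin (-arg z - θ) ≤ 0 :=
    Real.sin_nonpos_of_nonpos_of_neg_pi_le (by linarith) (by linarith)
  have h2 : ‖z‖ * Real.sin (-arg z - θ) ≤ 0 := mul_nonpos_of_nonneg_of_nonpos hn.le h1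
  rw [Real.sin_sub, Real.sin_neg, Real.cos_neg] at h2
  have h3 : ‖z‖ * (-Real.sin (arg z) * Real.cos θ - Real.cos (arg z) * Real.sin θ) =
      -z.im * Real.cos θ - z.re * Real.sin θ := by
    rw [← hs, ← hc]; ring
  linarith

/-- parameters for which the family has an eigenvalue of large argument -/
theorem exists_params (p : ℕ) (hp : 2 ≤ p) {θ : ℝ} (hθ : θ < Real.pi - Real.pi / p) :
    ∃ a c : ℝ, 0 < a ∧ 0 < c ∧ ∃ μ : ℂ, μ.im < 0 ∧
      (c : ℂ) * ((1 : ℝ) - μ) ^ (p + 1) - μ * (a + (1 : ℝ) - μ) ^ (p + 1) = 0 ∧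
      ∀ t : ℝ, 0 ≤ t → t ≤ 1 → θ < |arg (μ - t)| := by
  have hpi := Real.pi_pos
  have hp0 : (2 : ℝ) ≤ p := by exact_mod_cast hp
  have hp1 : (0 : ℝ) < p := by linarith
  set φ₀ : ℝ := Real.pi / p with hφ₀
  have hφpos : 0 < φ₀ := by positivity
  have hφle : φ₀ ≤ Real.pi / 2 := by
    rw [hφ₀]
    exact div_le_div_of_nonneg_left hpi.le (by norm_num) hp0
  have hpφ : p * φ₀ = Real.pi := by
    rw [hφ₀]; field_simp
  -- replace `θ` by a larger nonnegative number
  obtain ⟨ϑ, hϑ0, hϑ1, hθϑ⟩ : ∃ ϑ : ℝ, 0 ≤ ϑ ∧ ϑ < Real.pi - φ₀ ∧ θ ≤ ϑ :=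
    ⟨max θ 0, le_max_right _ _, max_lt hθ (by linarith), le_max_left _ _⟩
  have hsin0 : 0 < Real.sin φ₀ := Real.sin_pos_of_pos_of_lt_pi hφpos (by linarith)
  have hsin1 : 0 < Real.sin (φ₀ + ϑ) := Real.sin_pos_of_pos_of_lt_pi (by linarith) (by linarith)
  -- choice of `ε`
  have ev1 : ∀ᶠ ε in 𝓝[>] (0 : ℝ), 0 < Real.sin (φ₀ + (p + 1) * ε) * Real.sin (φ₀ + ε + ϑ) -
      Real.sin (p * ε) := by
    apply nhdsWithin_le_nhds
    have hc : Continuous (fun ε : ℝ => Real.sin (φ₀ + (p + 1) * ε) * Real.sin (φ₀ + ε + ϑ) -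
      Real.sin (p * ε)) := by fun_prop
    apply hc.continuousAt.eventually (lt_mem_nhds _)
    simp only [mul_zero, add_zero, Real.sin_zero, sub_zero]
    exact mul_pos hsin0 hsin1
  have ev2 : ∀ᶠ ε in 𝓝[>] (0 : ℝ), 0 < Real.sin (φ₀ + (p + 1) * ε) := by
    apply nhdsWithin_le_nhds
    have hc : Continuous (fun ε : ℝ => Real.sin (φ₀ + (p + 1) * ε)) := by fun_prop
    apply hc.continuousAt.eventually (lt_mem_nhds _)
    simpa using hsin0
  have ev3 : ∀ᶠ ε in 𝓝[>] (0 : ℝ), 0 < Real.sin (φ₀ + ε) := by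
    apply nhdsWithin_le_nhds
    have hc : Continuous (fun ε : ℝ => Real.sin (φ₀ + ε)) := by fun_prop
    apply hc.continuousAt.eventually (lt_mem_nhds _)
    simpa using hsin0
  have ev4 : ∀ᶠ ε in 𝓝[>] (0 : ℝ), 0 < Real.sin (p * ε) := by
    have : Set.Ioo (0 : ℝ) φ₀ ∈ 𝓝[>] (0 : ℝ) := Ioo_mem_nhdsGT hφpos
    filter_upwards [this] with ε hε
    apply Real.sin_pos_of_pos_of_lt_pi
    · exact mul_pos hp1 hε.1
    · have := mul_lt_mul_of_pos_left hε.2 hp1
      linarith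
  obtain ⟨ε, ⟨⟨h1, h2⟩, h3⟩, h4⟩ := (((ev1.and ev2).and ev3).and ev4).exists
  set φ : ℝ := φ₀ + ε with hφ
  set η : ℝ := p * ε with hη
  have hψ : φ₀ + (p + 1) * ε = η + φ := by rw [hη, hφ]; ring
  rw [hψ] at h1 h2
  set S : ℝ := Real.sin η with hS
  set C : ℝ := Real.cos η with hC
  set s : ℝ := Real.sin φ with hs
  set k : ℝ := Real.cos φ with hk
  have hSC : S ^ 2 + C ^ 2 = 1 := Real.sin_sq_add_cos_sq η
  have hsk : s ^ 2 + k ^ 2 = 1 := Real.sin_sq_add_cos_sq φ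
  have hP : Real.sin (η + φ) = S * k + C * s := Real.sin_add η φ
  have hQ : Real.cos (η + φ) = C * k - S * s := Real.cos_add η φ
  set P : ℝ := Real.sin (η + φ) with hPdef
  set Q : ℝ := Real.cos (η + φ) with hQdef
  set R : ℝ := 2 * P / S with hR
  have hRS : R * S = 2 * P := by rw [hR]; field_simp
  have hRpos : 0 < R := by rw [hR]; positivity
  have hRbig : 2 < R * Real.sin (φ + ϑ) := by
    rw [hR, div_mul_eq_mul_div, lt_div_iff₀ h4]
    linarith
  -- the points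
  set wb : ℂ := (R : ℂ) * (k + s * I) with hwb
  set w : ℂ := (R : ℂ) * (k - s * I) with hw
  have hww : w * wb = ((R ^ 2 : ℝ) : ℂ) := by
    rw [hw, hwb]
    have e1 : (R : ℂ) * (k - s * I) * (R * (k + s * I)) = (R : ℂ) ^ 2 * (k ^ 2 - s ^ 2 * I ^ 2) := by
      ring
    rw [e1, I_sq]
    have e2 : (k : ℂ) ^ 2 - s ^ 2 * (-1) = ((s ^ 2 + k ^ 2 : ℝ) : ℂ) := by push_cast; ring
    rw [e2, hsk]; push_cast; ring
  have hsum : w + wb = ((2 * R * k : ℝ) : ℂ) := by
    rw [hw, hwb]; push_cast; ring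
  have hwpow : w ^ (p + 1) = (R : ℂ) ^ (p + 1) * (-(Q : ℂ) + P * I) := by
    rw [hw, mul_pow]
    congr 1
    have e1 : (k : ℂ) - s * I = Complex.cos (-(φ : ℂ)) + Complex.sin (-(φ : ℂ)) * I := by
      rw [Complex.cos_neg, Complex.sin_neg, hk, hs]
      push_cast; ring
    rw [e1, Complex.cos_add_sin_mul_I_pow]
    have e2 : ((p + 1 : ℕ) : ℂ) * -(φ : ℂ) = -(((η + φ : ℝ) : ℂ) + Real.pi) := by
      have : ((p : ℝ) + 1) * φ = η + φ + Real.pi := by
        rw [hη, hφ, ← hpφ]; ring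
      have h5 : (((p : ℝ) + 1 : ℝ) : ℂ) * (φ : ℂ) = ((η + φ + Real.pi : ℝ) : ℂ) := by
        rw [← this]; push_cast; ring
      push_cast at h5 ⊢
      linear_combination -h5
    rw [e2, Complex.cos_neg, Complex.sin_neg, Complex.cos_add_pi, Complex.sin_add_pi]
    rw [← Complex.ofReal_cos, ← Complex.ofReal_sin]
    ring
  -- the parameters
  refine ⟨R ^ 2 - 2 * R * k + 1, 2 * R ^ (p + 1) * s / S, ?_, by positivity, 2 - wb, ?_, ?_, ?_⟩
  · have : R ^ 2 - 2 * R * k + 1 = (R * s) ^ 2 + (R * k - 1) ^ 2 := by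
      linear_combination -(R ^ 2) * hsk
    rw [this]
    have : 0 < (R * s) ^ 2 := by positivity
    nlinarith [sq_nonneg (R * k - 1)]
  · rw [hwb]
    simp
    positivity
  · have ha : (((R ^ 2 - 2 * R * k + 1 : ℝ) : ℂ)) + (1 : ℝ) - (2 - wb) = (wb - 1) * w := by
      push_cast at hww hsum ⊢
      linear_combination hsum - hww
    have hb : ((1 : ℝ) : ℂ) - (2 - wb) = wb - 1 := by push_cast; ring
    rw [ha, hb, mul_pow, hwpow]
    have key : ((2 * R ^ (p + 1) * s / S : ℝ) : ℂ) = (2 - wb) * ((R : ℂ) ^ (p + 1) * (-(Q : ℂ) + P * I)) := by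
      have hre : 2 * s / S = -(2 - R * k) * Q + R * s * P := by
        rw [div_eq_iff h4.ne']
        have e3 : k * Q + s * P = C := by
          rw [hP, hQ]; linear_combination C * hsk
        have e4 : (-(2 - R * k) * Q + R * s * P) * S = -2 * Q * S + R * S * (k * Q + s * P) := by ring
        rw [e4, e3, hRS]
        rw [hP, hQ]
        linear_combination (-2 * s) * hSC
      have him : (2 - R * k) * P + R * s * Q = 0 := by
        have e3 : k * P - s * Q = S := by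
          rw [hP, hQ]; linear_combination S * hsk
        have e4 : (2 - R * k) * P + R * s * Q = 2 * P - R * (k * P - s * Q) := by ring
        rw [e4, e3, hRS]; ring
      have e5 : (2 - wb) * ((R : ℂ) ^ (p + 1) * (-(Q : ℂ) + P * I)) =
          (R : ℂ) ^ (p + 1) * (((-(2 - R * k) * Q + R * s * P : ℝ) : ℂ) +
            (((2 - R * k) * P + R * s * Q : ℝ) : ℂ) * I) := by
        rw [hwb]
        push_cast
        linear_combination (-(R : ℂ) ^ (p + 1) * R * s * P) * I_sq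
      rw [e5, him, ← hre]
      push_cast
      ring
    rw [key]; ring
  · intro t ht0 ht1
    refine lt_of_le_of_lt hθϑ (lt_abs_arg hϑ0 (by linarith) ?_ ?_)
    · rw [hwb]
      simp
      positivity
    · have him : (2 - wb - (t : ℂ)).im = -(R * s) := by rw [hwb]; simp
      have hre : (2 - wb - (t : ℂ)).re = 2 - R * k - t := by rw [hwb]; simp
      rw [him, hre]
      have e6 : Real.sin (φ + ϑ) = s * Real.cos ϑ + k * Real.sin ϑ := Real.sin_add φ ϑ
      rw [e6] at hRbig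
      have h7 : Real.sin ϑ ≤ 1 := Real.sin_le_one ϑ
      have h8 : 0 ≤ Real.sin ϑ := Real.sin_nonneg_of_nonneg_of_le_pi hϑ0 (by linarith)
      nlinarith

end Pool.Agent.Y343.Tau
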