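import Mathlib

/-! Definitions around omega- and tau-matrices, and their first properties. -/

namespace Pool.Agent.Y343.Tau

open Matrix

/-- the principal submatrix `A(α)` of `A` with rows and columns indexed by `α` -/
def prin {n : ℕ} (A : Matrix (Fin n) (Fin n) ℂ) (α : Finset (Fin n)) : Matrix α α ℂ :=
  A.submatrix (fun i => (i : Fin n)) (fun i => (i : Fin n))

/-- `l(B)`: the least real eigenvalue of `B`, and `∞` if `B` has no real eigenvalue -/
noncomputable def leastReal {ι : Type} [Fintype ι] [DecidableEq ι] (B : Matrix ι ι ℂ) : EReal :=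
  sInf ((fun r : ℝ => (r : EReal)) '' {r : ℝ | (r : ℂ) ∈ spectrum ℂ B})

/-- `A` is an omega-matrix: `l(A(α)) ≤ l(A(β)) < ∞` whenever `∅ ≠ β ⊆ α` -/
def IsOmega {n : ℕ} (A : Matrix (Fin n) (Fin n) ℂ) : Prop :=
  ∀ α β : Finset (Fin n), β.Nonempty → β ⊆ α →
    leastReal (prin A α) ≤ leastReal (prin A β) ∧ leastReal (prin A β) < ⊤

/-- `A` is a tau-matrix: an omega-matrix with `l(A) ≥ 0` -/
def IsTau {n : ℕ} (A : Matrix (Fin n) (Fin n) ℂ) : Prop := IsOmega A ∧ 0 ≤ leastReal A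

/-- inequality (V) for a matrix of order `n` whose least real eigenvalue `t` is finite:
`|arg (μ - t)| ≤ π/2 - π/n` for every eigenvalue `μ ≠ t` -/
def SatisfiesV {n : ℕ} (A : Matrix (Fin n) (Fin n) ℂ) : Prop :=
  ∀ t : ℝ, leastReal A = (t : EReal) → ∀ μ ∈ spectrum ℂ A, μ ≠ (t : ℂ) →
    |Complex.arg (μ - t)| ≤ Real.pi / 2 - Real.pi / n

section Basic

variable {ι κ : Type} [Fintype ι] [DecidableEq ι] [Fintype κ] [DecidableEq κ]

theorem mem_spec_iff {B : Matrix ι ι ℂ} {μ : ℂ} :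
    μ ∈ spectrum ℂ B ↔ (B - μ • (1 : Matrix ι ι ℂ)).det = 0 := by
  rw [spectrum.mem_iff, Matrix.isUnit_iff_isUnit_det, isUnit_iff_ne_zero, not_not]
  have e : (algebraMap ℂ (Matrix ι ι ℂ)) μ - B = -(B - μ • (1 : Matrix ι ι ℂ)) := by
    rw [Algebra.algebraMap_eq_smul_one]; abel
  rw [e, Matrix.det_neg]
  constructor
  · intro h
    rcases mul_eq_zero.mp h with h0 | h0
    · exact absurd h0 (pow_ne_zero _ (by norm_num))
    · exact h0
  · intro h
    rw [h, mul_zero]

theorem spec_submatrix_equiv (B : Matrix κ κ ℂ) (e : ι ≃ κ) :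
    spectrum ℂ (B.submatrix e e) = spectrum ℂ B := by
  ext μ
  rw [mem_spec_iff, mem_spec_iff]
  have : B.submatrix e e - μ • (1 : Matrix ι ι ℂ) = (B - μ • (1 : Matrix κ κ ℂ)).submatrix e e := by
    ext i j
    simp [Matrix.one_apply]
  rw [this, Matrix.det_submatrix_equiv_self]

theorem leastReal_submatrix_equiv (B : Matrix κ κ ℂ) (e : ι ≃ κ) :
    leastReal (B.submatrix e e) = leastReal B := by
  unfold leastReal
  rw [spec_submatrix_equiv]

theorem leastReal_eq {B : Matrix ι ι ℂ} {t : ℝ}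
    (h : IsLeast {r : ℝ | (r : ℂ) ∈ spectrum ℂ B} t) : leastReal B = (t : EReal) := by
  apply le_antisymm
  · exact sInf_le ⟨t, h.1, rfl⟩
  · apply le_sInf
    rintro x ⟨r, hr, rfl⟩
    exact EReal.coe_le_coe_iff.mpr (h.2 hr)

theorem exists_isLeast {B : Matrix ι ι ℂ} (h : leastReal B < ⊤) :
    ∃ t : ℝ, IsLeast {r : ℝ | (r : ℂ) ∈ spectrum ℂ B} t := by
  have hne : {r : ℝ | (r : ℂ) ∈ spectrum ℂ B}.Nonempty := by
    by_contra hcon
    rw [Set.not_nonempty_iff_eq_empty] at hcon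
    unfold leastReal at h
    rw [hcon] at h
    simp at h
  have hfin : {r : ℝ | (r : ℂ) ∈ spectrum ℂ B}.Finite :=
    Set.Finite.preimage Complex.ofReal_injective.injOn (Matrix.finite_spectrum B)
  obtain ⟨t, ht⟩ := hfin.exists_minimal hne
  refine ⟨t, ht.1, ?_⟩
  intro s hs
  rcases le_total t s with h1 | h1
  · exact h1
  · exact ht.2 hs h1

theorem isLeast_of_leastReal {B : Matrix ι ι ℂ} {t : ℝ} (h : leastReal B = (t : EReal)) :
    IsLeast {r : ℝ | (r : ℂ) ∈ spectrum ℂ B} t := by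
  obtain ⟨s, hs⟩ := exists_isLeast (B := B) (by rw [h]; exact EReal.coe_lt_top t)
  have h2 := leastReal_eq hs
  rw [h] at h2
  have : t = s := by exact_mod_cast h2
  rw [this]; exact hs

variable {n : ℕ}

theorem leastReal_submatrix (A : Matrix (Fin n) (Fin n) ℂ) (f : ι → Fin n)
    (hf : Function.Injective f) :
    leastReal (A.submatrix f f) = leastReal (prin A (Finset.univ.image f)) := by
  let e : ι ≃ (Finset.univ.image f : Finset (Fin n)) :=
    Equiv.ofBijective (fun i => ⟨f i, Finset.mem_image_of_mem f (Finset.mem_univ i)⟩) (by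
      constructor
      · intro i j hij
        exact hf (congrArg Subtype.val hij)
      · rintro ⟨x, hx⟩
        obtain ⟨i, _, hi⟩ := Finset.mem_image.mp hx
        exact ⟨i, Subtype.ext hi⟩)
  have : A.submatrix f f = (prin A (Finset.univ.image f)).submatrix e e := rfl
  rw [this, leastReal_submatrix_equiv]

theorem IsOmega.mono {A : Matrix (Fin n) (Fin n) ℂ} (hA : IsOmega A) [Nonempty ι] (f : ι → Fin n)
    (hf : Function.Injective f) (g : κ → Fin n) (hg : Function.Injective g)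
    (hfg : ∀ i, ∃ j, g j = f i) :
    leastReal (A.submatrix g g) ≤ leastReal (A.submatrix f f) ∧ leastReal (A.submatrix f f) < ⊤ := by
  rw [leastReal_submatrix A f hf, leastReal_submatrix A g hg]
  apply hA
  · exact Finset.univ_nonempty.image f
  · intro x hx
    obtain ⟨i, _, hi⟩ := Finset.mem_image.mp hx
    obtain ⟨j, hj⟩ := hfg i
    exact Finset.mem_image.mpr ⟨j, Finset.mem_univ _, hj.trans hi⟩

theorem IsOmega.least {A : Matrix (Fin n) (Fin n) ℂ} (hA : IsOmega A) [Nonempty ι] (f : ι → Fin n)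
    (hf : Function.Injective f) :
    ∃ t : ℝ, IsLeast {r : ℝ | (r : ℂ) ∈ spectrum ℂ (A.submatrix f f)} t :=
  exists_isLeast (hA.mono f hf f hf (fun i => ⟨i, rfl⟩)).2

theorem IsOmega.least_le {A : Matrix (Fin n) (Fin n) ℂ} (hA : IsOmega A) [Nonempty ι]
    (f : ι → Fin n) (hf : Function.Injective f) (g : κ → Fin n) (hg : Function.Injective g)
    (hfg : ∀ i, ∃ j, g j = f i) {s t : ℝ}
    (hs : IsLeast {r : ℝ | (r : ℂ) ∈ spectrum ℂ (A.submatrix g g)} s)
    (ht : IsLeast {r : ℝ | (r : ℂ) ∈ spectrum ℂ (A.submatrix f f)} t) : s ≤ t := by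
  have h := (hA.mono f hf g hg hfg).1
  rw [leastReal_eq hs, leastReal_eq ht] at h
  exact_mod_cast h

end Basic

end Pool.Agent.Y343.Tau
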