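import Pool.Agent.Y343.Tau.Defs

/-! A three-parameter family of tau-matrices: first column `c`, first row `a` off the diagonal,
then `a + e` on the diagonal, `a` below it and `0` above it. -/

namespace Pool.Agent.Y343.Tau

open Matrix

/-- the family -/
def fam (n : ℕ) (a c e : ℝ) : Matrix (Fin n) (Fin n) ℝ := fun i j =>
  if (j : ℕ) = 0 then c else if (i : ℕ) = 0 then a else if i = j then a + e
    else if j < i then a else 0

/-- principal submatrices containing the first index -/
def shp (a c e : ℂ) (k : ℕ) : Matrix (Fin (k+1)) (Fin (k+1)) ℂ := fun i j =>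
  if j = 0 then c else if i = 0 then a else if i = j then a + e else if j < i then a else 0

/-- principal submatrices not containing the first index -/
def tri (a e : ℂ) (k : ℕ) : Matrix (Fin k) (Fin k) ℂ := fun i j =>
  if i = j then a + e else if j < i then a else 0

theorem det_tri (a e : ℂ) (k : ℕ) (x : ℂ) :
    (tri a e k + x • (1 : Matrix (Fin k) (Fin k) ℂ)).det = (x + (a + e)) ^ k := by
  rw [Matrix.det_of_isLowerTriangular]
  · have : ∀ i : Fin k, (tri a e k + x • (1 : Matrix (Fin k) (Fin k) ℂ)) i i = x + (a + e) := by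
      intro i
      simp [tri]; ring
    simp [this]
  · intro i j hij
    have h1 : i < j := hij
    simp [tri, h1.ne, not_lt.mpr h1.le]

theorem det_shp (a c e : ℂ) (k : ℕ) (x : ℂ) :
    (shp a c e k + x • (1 : Matrix (Fin (k+1)) (Fin (k+1)) ℂ)).det =
      x * (x + (a + e)) ^ k + c * (x + e) ^ k := by
  have hrow : (shp a c e k + x • (1 : Matrix (Fin (k+1)) (Fin (k+1)) ℂ)) =
      (shp a c e k + x • (1 : Matrix (Fin (k+1)) (Fin (k+1)) ℂ)).updateRow 0
        ((fun j => if j = 0 then x else 0) + (fun j => if j = 0 then c else a)) := by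
    ext i j
    by_cases hi : i = 0
    · subst hi
      rw [Matrix.updateRow_self]
      by_cases hj : j = 0
      · subst hj; simp [shp]; ring
      · have hj' : (0 : Fin (k+1)) ≠ j := fun h => hj h.symm
        simp [shp, hj, Matrix.one_apply_ne hj']
    · rw [Matrix.updateRow_ne hi]
  rw [hrow, Matrix.det_updateRow_add]
  congr 1
  · -- first part: expand along the first row
    rw [Matrix.det_succ_row_zero, Finset.sum_eq_single 0]
    · have e : ((shp a c e k + x • (1 : Matrix (Fin (k+1)) (Fin (k+1)) ℂ)).updateRow 0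
          (fun j => if j = 0 then x else 0)).submatrix
          Fin.succ (Fin.succAbove 0) = tri a e k + x • (1 : Matrix (Fin k) (Fin k) ℂ) := by
        ext i j
        simp only [Matrix.submatrix_apply, Fin.zero_succAbove]
        rw [Matrix.updateRow_ne (Fin.succ_ne_zero i)]
        simp [shp, tri, Matrix.one_apply]
      rw [e, det_tri]
      simp
    · intro j _ hj
      rw [Matrix.updateRow_self]
      simp [hj]
    · simp
  · -- second part: subtract the first row from the others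
    let B : Matrix (Fin (k+1)) (Fin (k+1)) ℂ := fun i j =>
      if i = 0 then (if j = 0 then c else a) else if i = j then x + e else if i < j then -a else 0
    have h1 : ((shp a c e k + x • (1 : Matrix (Fin (k+1)) (Fin (k+1)) ℂ)).updateRow 0
        (fun j => if j = 0 then c else a)).det = B.det := by
      apply Matrix.det_eq_of_forall_row_eq_smul_add_const (fun i => if i = 0 then 0 else 1) 0 (by simp)
      intro i j
      by_cases hi : i = 0
      · subst hi; rw [Matrix.updateRow_self]; simp [B]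
      · rw [Matrix.updateRow_ne hi]
        by_cases hj : j = 0
        · subst hj
          simp [B, shp, hi]
        · by_cases hij : i = j
          · subst hij
            simp [B, shp, hi]; ring
          · rcases lt_or_gt_of_ne hij with h | h
            · simp [B, shp, hi, hj, hij, h, not_lt.mpr h.le, Matrix.one_apply_ne hij]
            · simp [B, shp, hi, hj, hij, h, not_lt.mpr h.le, Matrix.one_apply_ne hij]
    rw [h1, Matrix.det_of_isUpperTriangular]
    · rw [Fin.prod_univ_succ]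
      simp [B]
    · intro i j hij
      have h2 : j < i := hij
      have hi : i ≠ 0 := by
        rintro rfl
        exact absurd h2 (Fin.not_lt_zero _)
      simp [B, hi, h2.ne', not_lt.mpr h2.le]

/-- the real polynomial whose roots are the real eigenvalues of `shp a c e k` -/
def F (a c e : ℝ) (k : ℕ) (t : ℝ) : ℝ := c * (e - t) ^ k - t * (a + e - t) ^ k

theorem spec_shp_complex (a c e : ℂ) (k : ℕ) (μ : ℂ) :
    μ ∈ spectrum ℂ (shp a c e k) ↔ c * (e - μ) ^ k - μ * (a + e - μ) ^ k = 0 := by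
  rw [mem_spec_iff]
  have : shp a c e k - μ • (1 : Matrix (Fin (k+1)) (Fin (k+1)) ℂ) =
      shp a c e k + (-μ) • (1 : Matrix (Fin (k+1)) (Fin (k+1)) ℂ) := by
    rw [neg_smul, sub_eq_add_neg]
  rw [this, det_shp]
  have e2 : -μ * (-μ + (a + e)) ^ k + c * (-μ + e) ^ k = c * (e - μ) ^ k - μ * (a + e - μ) ^ k := by
    have h1 : -μ + (a + e) = a + e - μ := by ring
    have h2 : -μ + e = e - μ := by ring
    rw [h1, h2]; ring
  rw [e2]

theorem spec_shp (a c e : ℝ) (k : ℕ) (r : ℝ) :
    (r : ℂ) ∈ spectrum ℂ (shp a c e k) ↔ F a c e k r = 0 := by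
  rw [spec_shp_complex]
  have : (c : ℂ) * ((e : ℂ) - r) ^ k - (r : ℂ) * ((a : ℂ) + e - r) ^ k = ((F a c e k r : ℝ) : ℂ) := by
    simp only [F]; push_cast; ring
  rw [this]
  exact_mod_cast Iff.rfl

theorem spec_tri (a e : ℝ) (k : ℕ) (hk : 0 < k) (r : ℝ) :
    (r : ℂ) ∈ spectrum ℂ (tri a e k) ↔ r = a + e := by
  rw [mem_spec_iff]
  have h1 : tri (a : ℂ) e k - (r : ℂ) • (1 : Matrix (Fin k) (Fin k) ℂ) =
      tri (a : ℂ) e k + (-(r : ℂ)) • (1 : Matrix (Fin k) (Fin k) ℂ) := by
    rw [neg_smul, sub_eq_add_neg]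
  have h2 : (-(r : ℂ) + ((a : ℂ) + e)) ^ k = (((a + e - r) ^ k : ℝ) : ℂ) := by
    push_cast; ring
  rw [h1, det_tri, h2]
  constructor
  · intro h
    have h3 : (a + e - r) ^ k = 0 := by exact_mod_cast h
    have := pow_eq_zero_iff (hk.ne') |>.mp h3
    linarith
  · intro h
    rw [h]
    simp [hk.ne']

theorem F_cont (a c e : ℝ) (k : ℕ) : Continuous (F a c e k) := by
  unfold F; fun_prop

variable {a c e : ℝ}

theorem F_pos_of_nonpos (ha : 0 < a) (hc : 0 < c) (he : 0 < e) (k : ℕ) {t : ℝ} (ht : t ≤ 0) :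
    0 < F a c e k t := by
  unfold F
  have h1 : 0 < c * (e - t) ^ k := by
    have : 0 < e - t := by linarith
    positivity
  have h2 : t * (a + e - t) ^ k ≤ 0 := by
    have : 0 ≤ (a + e - t) ^ k := pow_nonneg (by linarith) _
    exact mul_nonpos_of_nonpos_of_nonneg ht this
  linarith

theorem exists_least (ha : 0 < a) (hc : 0 < c) (he : 0 < e) (k : ℕ) {b : ℝ} (hb : 0 < b)
    (hF : F a c e k b ≤ 0) :
    ∃ t, IsLeast {r : ℝ | F a c e k r = 0} t ∧ 0 < t ∧ t ≤ b := by
  have hiv : ∃ r ∈ Set.Icc 0 b, F a c e k r = 0 := by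
    have h := intermediate_value_Icc' hb.le ((F_cont a c e k).continuousOn (s := Set.Icc 0 b))
    exact h ⟨hF, (F_pos_of_nonpos ha hc he k le_rfl).le⟩
  have hcomp : IsCompact ({r : ℝ | F a c e k r = 0} ∩ Set.Icc 0 b) :=
    (isCompact_Icc).inter_left (isClosed_eq (F_cont a c e k) continuous_const)
  obtain ⟨r, hr, hr0⟩ := hiv
  obtain ⟨t, ht⟩ := hcomp.exists_isLeast ⟨r, hr0, hr⟩
  refine ⟨t, ⟨ht.1.1, ?_⟩, ?_, ht.1.2.2⟩
  · intro x hx
    by_cases hx0 : x ≤ 0
    · exact absurd hx (F_pos_of_nonpos ha hc he k hx0).ne'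
    · by_cases hxb : x ≤ b
      · exact ht.2 ⟨hx, (not_le.mp hx0).le, hxb⟩
      · exact ht.1.2.2.trans (not_le.mp hxb).le
  · by_contra hcon
    exact absurd ht.1.1 (F_pos_of_nonpos ha hc he k (not_lt.mp hcon)).ne'

/-- data on the least roots -/
theorem roots_data (ha : 0 < a) (hc : 0 < c) (he : 0 < e) :
    ∃ T : ℕ → ℝ, (∀ k, IsLeast {r : ℝ | F a c e k r = 0} (T k)) ∧ (∀ k, 0 < T k) ∧
      (∀ k, T (k+1) < e) ∧ ∀ k, T (k+1) ≤ T k := by
  have h0 : ∀ k, ∃ t, IsLeast {r : ℝ | F a c e k r = 0} t ∧ 0 < t ∧ (0 < k → t < e) := by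
    intro k
    rcases Nat.eq_zero_or_pos k with rfl | hk
    · obtain ⟨t, h1, h2, _⟩ := exists_least ha hc he 0 (b := c) hc (by simp [F])
      exact ⟨t, h1, h2, fun h => absurd h (lt_irrefl _)⟩
    · have hF : F a c e k e < 0 := by
        simp only [F, sub_self]
        rw [zero_pow hk.ne']
        have : 0 < e * (a + e - e) ^ k := by
          have : 0 < a + e - e := by linarith
          positivity
        linarith
      obtain ⟨t, h1, h2, h3⟩ := exists_least ha hc he k he hF.le
      refine ⟨t, h1, h2, fun _ => lt_of_le_of_ne h3 ?_⟩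
      rintro rfl
      exact absurd h1.1 hF.ne
  choose T h1 h2 h3 using h0
  refine ⟨T, h1, h2, fun k => h3 (k+1) (Nat.succ_pos k), ?_⟩
  intro k
  have hroot : F a c e k (T k) = 0 := (h1 k).1
  have hV : 0 < (e - T k) ^ k := by
    rcases Nat.eq_zero_or_pos k with rfl | hk
    · simp
    · exact pow_pos (by linarith [h3 k hk]) _
  have hneg : F a c e (k+1) (T k) ≤ 0 := by
    have e1 : F a c e (k+1) (T k) = -(a * (c * (e - T k) ^ k)) + (a + e - T k) * F a c e k (T k) := by
      simp only [F]; ring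
    rw [e1, hroot]
    have : 0 < a * (c * (e - T k) ^ k) := by positivity
    linarith
  obtain ⟨t, ht, _, hle⟩ := exists_least ha hc he (k+1) (h2 k) hneg
  have : T (k+1) = t := (h1 (k+1)).unique ht
  rw [this]; exact hle

/-- the complexification of the family -/
theorem fam_map_shp (k : ℕ) : (fam (k+1) a c e).map (fun r : ℝ => (r : ℂ)) = shp a c e k := by
  ext i j
  simp only [Matrix.map_apply, fam, shp]
  have h : ∀ q : Fin (k+1), ((q : ℕ) = 0) = (q = 0) := fun q =>
    propext ⟨fun h => Fin.ext h, fun h => by rw [h]; rfl⟩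
  simp only [h]
  split_ifs <;> simp

theorem zero_iff {n k : ℕ} (α : Fin (k+1) ↪o Fin n) (h : ((α 0 : Fin n) : ℕ) = 0) (i : Fin (k+1)) :
    ((α i : Fin n) : ℕ) = 0 ↔ i = 0 := by
  constructor
  · intro hi
    exact α.injective (Fin.ext (hi.trans h.symm))
  · rintro rfl; exact h

theorem sub_shp {n k : ℕ} (α : Fin (k+1) ↪o Fin n) (h : ((α 0 : Fin n) : ℕ) = 0) :
    ((fam n a c e).map (fun r : ℝ => (r : ℂ))).submatrix α α = shp a c e k := by
  ext i j
  simp only [Matrix.submatrix_apply, Matrix.map_apply, fam, shp, zero_iff α h, α.injective.eq_iff,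
    α.lt_iff_lt]
  split_ifs <;> simp

theorem sub_tri {n k : ℕ} (α : Fin k ↪o Fin n) (h : ∀ i, ((α i : Fin n) : ℕ) ≠ 0) :
    ((fam n a c e).map (fun r : ℝ => (r : ℂ))).submatrix α α = tri a e k := by
  ext i j
  simp only [Matrix.submatrix_apply, Matrix.map_apply, fam, tri, h, if_false, α.injective.eq_iff,
    α.lt_iff_lt]
  split_ifs <;> simp


theorem leastReal_prin_emb {n m : ℕ} (A : Matrix (Fin n) (Fin n) ℂ) (β : Finset (Fin n))
    (h : β.card = m) :
    leastReal (prin A β) = leastReal (A.submatrix (β.orderEmbOfFin h) (β.orderEmbOfFin h)) := by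
  rw [leastReal_submatrix A (β.orderEmbOfFin h) (β.orderEmbOfFin h).injective]
  have : Finset.univ.image (β.orderEmbOfFin h) = β := by
    ext x
    rw [Finset.mem_image]
    constructor
    · rintro ⟨i, _, rfl⟩
      exact Finset.orderEmbOfFin_mem β h i
    · intro hx
      have : x ∈ Set.range (β.orderEmbOfFin h) := by
        rw [Finset.range_orderEmbOfFin]; exact hx
      obtain ⟨i, hi⟩ := this
      exact ⟨i, Finset.mem_univ _, hi⟩
  rw [this]

theorem leastReal_with {n k : ℕ} {T : ℕ → ℝ} (hT : ∀ k, IsLeast {r : ℝ | F a c e k r = 0} (T k))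
    (β : Finset (Fin n)) (h : β.card = k + 1) (h0 : ∃ x ∈ β, (x : ℕ) = 0) :
    leastReal (prin ((fam n a c e).map (fun r : ℝ => (r : ℂ))) β) = (T k : EReal) := by
  rw [leastReal_prin_emb _ β h]
  have hz : ((β.orderEmbOfFin h 0 : Fin n) : ℕ) = 0 := by
    obtain ⟨x, hx, hx0⟩ := h0
    have : x ∈ Set.range (β.orderEmbOfFin h) := by
      rw [Finset.range_orderEmbOfFin]; exact hx
    obtain ⟨i, hi⟩ := this
    have h1 : β.orderEmbOfFin h 0 ≤ β.orderEmbOfFin h i :=
      (β.orderEmbOfFin h).le_iff_le.mpr (Fin.zero_le i)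
    rw [hi] at h1
    have h2 : ((β.orderEmbOfFin h 0 : Fin n) : ℕ) ≤ (x : ℕ) := h1
    omega
  rw [sub_shp _ hz]
  apply leastReal_eq
  have e : {r : ℝ | (r : ℂ) ∈ spectrum ℂ (shp a c e k)} = {r : ℝ | F a c e k r = 0} := by
    ext r; exact spec_shp a c e k r
  rw [e]; exact hT k

theorem leastReal_without {n : ℕ} (β : Finset (Fin n)) (hβ : β.Nonempty)
    (h0 : ∀ x ∈ β, (x : ℕ) ≠ 0) :
    leastReal (prin ((fam n a c e).map (fun r : ℝ => (r : ℂ))) β) = ((a + e : ℝ) : EReal) := by
  rw [leastReal_prin_emb _ β rfl, sub_tri _ (fun i => h0 _ (Finset.orderEmbOfFin_mem β rfl i))]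
  apply leastReal_eq
  have e : {r : ℝ | (r : ℂ) ∈ spectrum ℂ (tri a e β.card)} = {a + e} := by
    ext r; exact spec_tri a e _ (Finset.card_pos.mpr hβ) r
  rw [e]; exact isLeast_singleton

/-- all members of the family are tau-matrices -/
theorem fam_tau (ha : 0 < a) (hc : 0 < c) (he : 0 < e) (k : ℕ) :
    IsTau ((fam (k+2) a c e).map (fun r : ℝ => (r : ℂ))) ∧
    ∃ t : ℝ, 0 < t ∧ t < e ∧
      leastReal ((fam (k+2) a c e).map (fun r : ℝ => (r : ℂ))) = (t : EReal) := by
  obtain ⟨T, hL, hpos, hlt, hmono⟩ := roots_data ha hc he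
  have hanti : Antitone T := antitone_nat_of_succ_le hmono
  have hfull : leastReal ((fam (k+2) a c e).map (fun r : ℝ => (r : ℂ))) = (T (k+1) : EReal) := by
    rw [fam_map_shp]
    apply leastReal_eq
    have e : {r : ℝ | (r : ℂ) ∈ spectrum ℂ (shp a c e (k+1))} = {r : ℝ | F a c e (k+1) r = 0} := by
      ext r; exact spec_shp a c e (k+1) r
    rw [e]; exact hL (k+1)
  refine ⟨⟨?_, ?_⟩, T (k+1), hpos _, hlt k, hfull⟩
  · intro α β hβ hsub
    have hα : α.Nonempty := hβ.mono hsub
    by_cases h0 : ∃ x ∈ β, (x : ℕ) = 0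
    · obtain ⟨x, hx, hx0⟩ := h0
      obtain ⟨p, hp⟩ : ∃ p, β.card = p + 1 := ⟨β.card - 1, by have := Finset.card_pos.mpr hβ; omega⟩
      obtain ⟨q, hq⟩ : ∃ q, α.card = q + 1 := ⟨α.card - 1, by have := Finset.card_pos.mpr hα; omega⟩
      rw [leastReal_with hL β hp ⟨x, hx, hx0⟩, leastReal_with hL α hq ⟨x, hsub hx, hx0⟩]
      have hpq := Finset.card_le_card hsub
      exact ⟨EReal.coe_le_coe_iff.mpr (hanti (by omega)), EReal.coe_lt_top _⟩
    · have h0' : ∀ x ∈ β, (x : ℕ) ≠ 0 := fun x hx hx0 => h0 ⟨x, hx, hx0⟩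
      rw [leastReal_without β hβ h0']
      refine ⟨?_, EReal.coe_lt_top _⟩
      by_cases h1 : ∃ x ∈ α, (x : ℕ) = 0
      · obtain ⟨q, hq⟩ : ∃ q, α.card = q + 1 + 1 := by
          refine ⟨α.card - 2, ?_⟩
          have hne : β ≠ α := by
            rintro rfl
            exact h0 h1
          have := Finset.card_lt_card (Finset.ssubset_iff_subset_ne.mpr ⟨hsub, hne⟩)
          have := Finset.card_pos.mpr hβ
          omega
        rw [leastReal_with hL α hq h1]
        exact EReal.coe_le_coe_iff.mpr (by linarith [hlt q])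
      · have h1' : ∀ x ∈ α, (x : ℕ) ≠ 0 := fun x hx hx0 => h1 ⟨x, hx, hx0⟩
        rw [leastReal_without α hα h1']
  · rw [hfull]
    exact_mod_cast (hpos _).le

theorem fam_nonneg (ha : 0 < a) (hc : 0 < c) (he : 0 < e) (n : ℕ) (i j : Fin n) :
    0 ≤ fam n a c e i j := by
  unfold fam
  split_ifs <;> linarith

theorem fam_spec (k : ℕ) (μ : ℂ) :
    μ ∈ spectrum ℂ ((fam (k+2) a c e).map (fun r : ℝ => (r : ℂ))) ↔
      (c : ℂ) * (e - μ) ^ (k+1) - μ * (a + e - μ) ^ (k+1) = 0 := by
  rw [fam_map_shp, spec_shp_complex]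

end Pool.Agent.Y343.Tau
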