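import Pool.Agent.Y343.Tau.Orders
import Pool.Agent.Y343.Tau.Family
import Pool.Agent.Y343.Tau.Angle

/-! Assembly: inequality (V) for tau-matrices holds exactly in the orders at most three. -/

namespace Pool.Agent.Y343.Tau

open Matrix

/-- the half-plane bound for omega-matrices of order at most four -/
theorem half_plane {n : ℕ} (hn : n ≤ 4) {A : Matrix (Fin n) (Fin n) ℂ} (hA : IsOmega A) {t : ℝ}
    (ht : leastReal A = (t : EReal)) {μ : ℂ} (hμ : μ ∈ spectrum ℂ A) (hne : μ ≠ (t : ℂ)) :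
    |Complex.arg (μ - t)| < Real.pi / 2 := by
  have hpi := Real.pi_pos
  have hl := isLeast_of_leastReal ht
  interval_cases n
  · exfalso
    rw [mem_spec_iff] at hμ
    simp at hμ
  · exact absurd (order1 hl hμ) hne
  · rw [order2 hA hl hμ hne]; simp; positivity
  · exact lt_of_le_of_lt (order3 hA hl hμ hne) (by linarith)
  · exact order4 hA hl hμ hne

/-- inequality (V) for omega-matrices of order at most three -/
theorem V_small {n : ℕ} (hn : n ≤ 3) {A : Matrix (Fin n) (Fin n) ℂ} (hA : IsOmega A) :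
    SatisfiesV A := by
  intro t ht μ hμ hne
  have hpi := Real.pi_pos
  have hl := isLeast_of_leastReal ht
  interval_cases n
  · exfalso
    rw [mem_spec_iff] at hμ
    simp at hμ
  · exact absurd (order1 hl hμ) hne
  · rw [order2 hA hl hμ hne]; simp
  · refine (order3 hA hl hμ hne).trans (le_of_eq ?_)
    push_cast; ring

/-- matrices of the family with eigenvalues of large argument -/
theorem large_arg (n : ℕ) (hn : 4 ≤ n) (θ : ℝ) (hθ : θ < Real.pi - Real.pi / ((n : ℝ) - 2)) :
    ∃ A : Matrix (Fin n) (Fin n) ℝ, (∀ i j, 0 ≤ A i j) ∧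
      IsTau (A.map (fun r : ℝ => (r : ℂ))) ∧
      ∃ t : ℝ, 0 < t ∧ leastReal (A.map (fun r : ℝ => (r : ℂ))) = (t : EReal) ∧
        ∃ μ ∈ spectrum ℂ (A.map (fun r : ℝ => (r : ℂ))), μ ≠ (t : ℂ) ∧
          θ < |Complex.arg μ| ∧ θ < |Complex.arg (μ - t)| := by
  obtain ⟨p, rfl⟩ : ∃ p, n = p + 2 := ⟨n - 2, by omega⟩
  have hp : (((p + 2 : ℕ) : ℝ) - 2) = p := by push_cast; ring
  rw [hp] at hθ
  obtain ⟨a, c, ha, hc, μ, him, hroot, harg⟩ := exists_params p (by omega) hθ
  obtain ⟨htau, t, ht0, ht1, hl⟩ := fam_tau ha hc one_pos p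
  refine ⟨fam (p + 2) a c 1, fam_nonneg ha hc one_pos _, htau, t, ht0, hl, μ, ?_, ?_, ?_, ?_⟩
  · rw [fam_spec]
    exact hroot
  · intro h
    rw [h] at him
    simp at him
  · have := harg 0 le_rfl zero_le_one
    simpa using this
  · exact harg t ht0.le ht1.le

/-- a sufficient condition for an argument larger than `π/4` -/
theorem quarter_lt_abs_arg {z : ℂ} (h0 : 0 < z.re) (h : z.re < z.im) :
    Real.pi / 4 < |Complex.arg z| := by
  have hpi := Real.pi_pos
  have hz : z ≠ 0 := by
    rintro rfl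
    simp at h0
  have hn : 0 < ‖z‖ := norm_pos_iff.mpr hz
  by_contra hcon
  have h1 : Real.cos (Real.pi / 4) ≤ Real.cos |Complex.arg z| :=
    Real.cos_le_cos_of_nonneg_of_le_pi (abs_nonneg _) (by linarith) (not_lt.mp hcon)
  rw [Real.cos_abs, Real.cos_pi_div_four] at h1
  have h2 : ‖z‖ * Real.cos (Complex.arg z) = z.re := Complex.norm_mul_cos_arg z
  have h3 : ‖z‖ * (Real.sqrt 2 / 2) ≤ z.re := by
    rw [← h2]; exact mul_le_mul_of_nonneg_left h1 hn.le
  have h4 : (‖z‖ * (Real.sqrt 2 / 2)) ^ 2 ≤ z.re ^ 2 := by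
    apply pow_le_pow_left₀ (by positivity) h3
  have h5 : (‖z‖ * (Real.sqrt 2 / 2)) ^ 2 = ‖z‖ ^ 2 / 2 := by
    rw [mul_pow, div_pow, Real.sq_sqrt (by norm_num)]; ring
  have h6 : ‖z‖ ^ 2 = z.re ^ 2 + z.im ^ 2 := by
    rw [Complex.sq_norm, Complex.normSq_apply]; ring
  rw [h5, h6] at h4
  nlinarith

/-- an explicit integer matrix of order four -/
def M4 : Matrix (Fin 4) (Fin 4) ℂ :=
  !![2197, 374, 374, 374;
     2197, 382,   0,   0;
     2197, 374, 382,   0;
     2197, 374, 374, 382]

theorem M4_eq : M4 = (fam 4 374 2197 8).map (fun r : ℝ => (r : ℂ)) := by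
  ext i j
  fin_cases i <;> fin_cases j <;> simp [M4, fam] <;> norm_num

theorem M4_tau : IsTau M4 ∧ ∃ t : ℝ, 0 < t ∧ t < 8 ∧ leastReal M4 = (t : EReal) := by
  rw [M4_eq]
  exact fam_tau (by norm_num) (by norm_num) (by norm_num) 2

theorem M4_eigen : (74 + 110 * Complex.I) ∈ spectrum ℂ M4 := by
  rw [M4_eq]
  have h := (fam_spec (a := 374) (c := 2197) (e := 8) 2 (74 + 110 * Complex.I)).mpr
  apply h
  push_cast
  have h2 : Complex.I ^ 2 = -1 := Complex.I_sq
  have h4 : Complex.I ^ 4 = 1 := Complex.I_pow_four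
  have h3 : Complex.I ^ 3 = -Complex.I := by rw [pow_succ, h2]; ring
  ring_nf
  rw [h2, h3, h4]
  ring

theorem M4_not_V : ¬ SatisfiesV M4 := by
  intro hV
  obtain ⟨_, t, ht0, ht8, hl⟩ := M4_tau
  have hne : (74 + 110 * Complex.I) ≠ (t : ℂ) := by
    intro h
    have := congrArg Complex.im h
    simp at this
  have h := hV t hl _ M4_eigen hne
  have hre : (74 + 110 * Complex.I - (t : ℂ)).re = 74 - t := by simp
  have him : (74 + 110 * Complex.I - (t : ℂ)).im = 110 := by simp
  have h2 := quarter_lt_abs_arg (z := 74 + 110 * Complex.I - (t : ℂ)) (by rw [hre]; linarith)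
    (by rw [hre, him]; linarith)
  push_cast at h
  linarith

/-- inequality (V) holds for all tau-matrices of order `n` exactly if `n ≤ 3` -/
theorem V_iff (n : ℕ) : (∀ A : Matrix (Fin n) (Fin n) ℂ, IsTau A → SatisfiesV A) ↔ n ≤ 3 := by
  constructor
  · intro h
    by_contra hcon
    have hn : 4 ≤ n := by omega
    have hpi := Real.pi_pos
    have hn4 : (4 : ℝ) ≤ n := by exact_mod_cast hn
    have hθ : Real.pi / 2 - Real.pi / n < Real.pi - Real.pi / ((n : ℝ) - 2) := by
      have h1 : Real.pi / ((n : ℝ) - 2) ≤ Real.pi / 2 :=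
        div_le_div_of_nonneg_left hpi.le (by norm_num) (by linarith)
      have h2 : 0 < Real.pi / (n : ℝ) := by positivity
      linarith
    obtain ⟨A, _, htau, t, _, hl, μ, hμ, hne, _, harg⟩ := large_arg n hn _ hθ
    have := h _ htau t hl μ hμ hne
    linarith
  · intro hn A hA
    exact V_small hn hA.1

/-- tau-matrices of order `n` with positive least real eigenvalue are always stable
exactly if `n ≤ 4` -/
theorem stable_iff (n : ℕ) : (∀ A : Matrix (Fin n) (Fin n) ℂ, IsTau A → 0 < leastReal A →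
    ∀ μ ∈ spectrum ℂ A, 0 < μ.re) ↔ n ≤ 4 := by
  have hpi := Real.pi_pos
  constructor
  · intro h
    by_contra hcon
    have hn : 5 ≤ n := by omega
    have hn5 : (5 : ℝ) ≤ n := by exact_mod_cast hn
    have hθ : Real.pi / 2 < Real.pi - Real.pi / ((n : ℝ) - 2) := by
      have h1 : Real.pi / ((n : ℝ) - 2) ≤ Real.pi / 3 :=
        div_le_div_of_nonneg_left hpi.le (by norm_num) (by linarith)
      linarith
    obtain ⟨A, _, htau, t, ht, hl, μ, hμ, _, harg, _⟩ := large_arg n (by omega) _ hθ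
    have h1 := h _ htau (by rw [hl]; exact_mod_cast ht) μ hμ
    have h2 : |Complex.arg μ| ≤ Real.pi / 2 := Complex.abs_arg_le_pi_div_two_iff.mpr h1.le
    linarith
  · intro hn A hA hpos μ hμ
    have hn0 : n ≠ 0 := by
      rintro rfl
      rw [mem_spec_iff] at hμ
      simp at hμ
    have hlt : leastReal A < ⊤ := by
      have h1 : (Finset.univ : Finset (Fin n)).Nonempty := by
        rw [Finset.univ_nonempty_iff]
        exact ⟨⟨0, Nat.pos_of_ne_zero hn0⟩⟩
      have h2 := (hA.1 Finset.univ Finset.univ h1 (Finset.Subset.refl _)).2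
      have h3 := leastReal_submatrix A (id : Fin n → Fin n) Function.injective_id
      rw [Finset.image_id] at h3
      rw [← h3] at h2
      simpa using h2
    obtain ⟨t, ht⟩ := exists_isLeast hlt
    have hl := leastReal_eq ht
    rw [hl] at hpos
    have ht0 : 0 < t := by exact_mod_cast hpos
    by_cases hne : μ = (t : ℂ)
    · rw [hne]; simpa using ht0
    · have h1 := half_plane hn hA.1 hl hμ hne
      rw [Complex.abs_arg_lt_pi_div_two_iff] at h1
      rcases h1 with h1 | h1
      · simp at h1; linarith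
      · exact absurd (sub_eq_zero.mp h1) hne

end Pool.Agent.Y343.Tau
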