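import Pool.Agent.Y343.Tau.Small

/-! The eigenvalues of omega-matrices of order at most four. -/

namespace Pool.Agent.Y343.Tau

open Matrix

theorem full1 (A : Matrix (Fin 1) (Fin 1) ℂ) (x : ℂ) :
    (A - x • (1 : Matrix (Fin 1) (Fin 1) ℂ)).det = A 0 0 - x := by
  rw [Matrix.det_fin_one]
  simp

theorem full2 (A : Matrix (Fin 2) (Fin 2) ℂ) (x : ℂ) :
    (A - x • (1 : Matrix (Fin 2) (Fin 2) ℂ)).det = (A 0 0 - x) * (A 1 1 - x) - A 0 1 * A 1 0 := by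
  rw [Matrix.det_fin_two]
  simp

theorem full3 (A : Matrix (Fin 3) (Fin 3) ℂ) (x : ℂ) :
    (A - x • (1 : Matrix (Fin 3) (Fin 3) ℂ)).det =
      (A 0 0 - x) * (A 1 1 - x) * (A 2 2 - x) - (A 0 0 - x) * (A 1 2 * A 2 1) -
        (A 1 1 - x) * (A 0 2 * A 2 0) - (A 2 2 - x) * (A 0 1 * A 1 0) +
        (A 0 1 * A 1 2 * A 2 0 + A 0 2 * A 2 1 * A 1 0) := by
  rw [Matrix.det_fin_three]
  simp
  ring

/-- the part of the determinant of order 4 given by the permutations without fixed points -/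
def four (A : Matrix (Fin 4) (Fin 4) ℂ) : ℂ :=
  A 0 1 * A 1 0 * (A 2 3 * A 3 2) + A 0 2 * A 2 0 * (A 1 3 * A 3 1) + A 0 3 * A 3 0 * (A 1 2 * A 2 1)
    - A 0 1 * A 1 2 * A 2 3 * A 3 0 - A 0 1 * A 1 3 * A 3 2 * A 2 0 - A 0 2 * A 2 1 * A 1 3 * A 3 0
    - A 0 2 * A 2 3 * A 3 1 * A 1 0 - A 0 3 * A 3 1 * A 1 2 * A 2 0 - A 0 3 * A 3 2 * A 2 1 * A 1 0

theorem full4 (A : Matrix (Fin 4) (Fin 4) ℂ) (x : ℂ) :
    (A - x • (1 : Matrix (Fin 4) (Fin 4) ℂ)).det =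
      (A 0 0 - x) * (A 1 1 - x) * (A 2 2 - x) * (A 3 3 - x)
      - (A 0 0 - x) * (A 1 1 - x) * (A 2 3 * A 3 2) - (A 0 0 - x) * (A 2 2 - x) * (A 1 3 * A 3 1)
      - (A 0 0 - x) * (A 3 3 - x) * (A 1 2 * A 2 1) - (A 1 1 - x) * (A 2 2 - x) * (A 0 3 * A 3 0)
      - (A 1 1 - x) * (A 3 3 - x) * (A 0 2 * A 2 0) - (A 2 2 - x) * (A 3 3 - x) * (A 0 1 * A 1 0)
      + (A 0 0 - x) * (A 1 2 * A 2 3 * A 3 1 + A 1 3 * A 3 2 * A 2 1)
      + (A 1 1 - x) * (A 0 2 * A 2 3 * A 3 0 + A 0 3 * A 3 2 * A 2 0)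
      + (A 2 2 - x) * (A 0 1 * A 1 3 * A 3 0 + A 0 3 * A 3 1 * A 1 0)
      + (A 3 3 - x) * (A 0 1 * A 1 2 * A 2 0 + A 0 2 * A 2 1 * A 1 0)
      + four A := by
  rw [Matrix.det_succ_row_zero]
  simp only [Fin.sum_univ_succ, Matrix.det_fin_three, four]
  simp [Fin.succAbove]
  ring


/-- order one: there is no eigenvalue besides the least real one -/
theorem order1 {A : Matrix (Fin 1) (Fin 1) ℂ} {l : ℝ}
    (hl : IsLeast {r : ℝ | (r : ℂ) ∈ spectrum ℂ A} l) {μ : ℂ} (hμ : μ ∈ spectrum ℂ A) :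
    μ = l := by
  have h1 := mem_spec_iff.mp hμ
  have h2 := mem_spec_iff.mp hl.1
  rw [full1] at h1 h2
  linear_combination h2 - h1

/-- order two: the other eigenvalue is real and larger -/
theorem order2 {A : Matrix (Fin 2) (Fin 2) ℂ} (hA : IsOmega A) {l : ℝ}
    (hl : IsLeast {r : ℝ | (r : ℂ) ∈ spectrum ℂ A} l) {μ : ℂ} (hμ : μ ∈ spectrum ℂ A)
    (hne : μ ≠ l) : Complex.arg (μ - l) = 0 := by
  obtain ⟨b0, hb0, h0⟩ := diag hA hl 0
  obtain ⟨b1, hb1, h1⟩ := diag hA hl 1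
  have h2 := mem_spec_iff.mp hμ
  have h3 := mem_spec_iff.mp hl.1
  rw [full2, h0, h1] at h2 h3
  have hu : μ - l ≠ 0 := sub_ne_zero.mpr hne
  have h4 : (μ - l) * ((μ - l) - (b0 + b1)) = 0 := by
    push_cast at h2 h3
    linear_combination h2 - h3
  rcases mul_eq_zero.mp h4 with h5 | h5
  · exact absurd h5 hu
  · rw [sub_eq_zero.mp h5]
    have : ((b0 : ℂ) + b1) = ((b0 + b1 : ℝ) : ℂ) := by push_cast; ring
    rw [this]
    exact Complex.arg_ofReal_of_nonneg (by linarith)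

/-- order three: the sector of half-angle `π/6` -/
theorem order3 {A : Matrix (Fin 3) (Fin 3) ℂ} (hA : IsOmega A) {l : ℝ}
    (hl : IsLeast {r : ℝ | (r : ℂ) ∈ spectrum ℂ A} l) {μ : ℂ} (hμ : μ ∈ spectrum ℂ A)
    (hne : μ ≠ l) : |Complex.arg (μ - l)| ≤ Real.pi / 6 := by
  obtain ⟨b0, hb0, h0⟩ := diag hA hl 0
  obtain ⟨b1, hb1, h1⟩ := diag hA hl 1
  obtain ⟨b2, hb2, h2⟩ := diag hA hl 2
  obtain ⟨m01, hm01, hle01, h01⟩ := pair hA hl (i := 0) (j := 1) (by decide) h0 h1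
  obtain ⟨m02, hm02, hle02, h02⟩ := pair hA hl (i := 0) (j := 2) (by decide) h0 h2
  obtain ⟨m12, hm12, hle12, h12⟩ := pair hA hl (i := 1) (j := 2) (by decide) h1 h2
  have e1 := mem_spec_iff.mp hμ
  have e2 := mem_spec_iff.mp hl.1
  rw [full3, h0, h1, h2, h01, h02, h12] at e1 e2
  have hu : μ - l ≠ 0 := sub_ne_zero.mpr hne
  have h4 : (μ - l) * ((μ - l) ^ 2 - ((b0 + b1 + b2 : ℝ) : ℂ) * (μ - l) + ((m01 + m02 + m12 : ℝ) : ℂ)) = 0 := by
    push_cast at e1 e2 ⊢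
    linear_combination e2 - e1
  rcases mul_eq_zero.mp h4 with h5 | h5
  · exact absurd h5 hu
  · refine arg_quadratic (by linarith) (by linarith) ?_ hu h5
    nlinarith [sq_nonneg (b0 - b1), sq_nonneg (b0 - b2), sq_nonneg (b1 - b2)]

/-- order four: the open right half-plane -/
theorem order4 {A : Matrix (Fin 4) (Fin 4) ℂ} (hA : IsOmega A) {l : ℝ}
    (hl : IsLeast {r : ℝ | (r : ℂ) ∈ spectrum ℂ A} l) {μ : ℂ} (hμ : μ ∈ spectrum ℂ A)
    (hne : μ ≠ l) : |Complex.arg (μ - l)| < Real.pi / 2 := by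
  obtain ⟨b0, hb0, h0⟩ := diag hA hl 0
  obtain ⟨b1, hb1, h1⟩ := diag hA hl 1
  obtain ⟨b2, hb2, h2⟩ := diag hA hl 2
  obtain ⟨b3, hb3, h3⟩ := diag hA hl 3
  obtain ⟨m01, hm01, hle01, h01⟩ := pair hA hl (i := 0) (j := 1) (by decide) h0 h1
  obtain ⟨m02, hm02, hle02, h02⟩ := pair hA hl (i := 0) (j := 2) (by decide) h0 h2
  obtain ⟨m03, hm03, hle03, h03⟩ := pair hA hl (i := 0) (j := 3) (by decide) h0 h3
  obtain ⟨m12, hm12, hle12, h12⟩ := pair hA hl (i := 1) (j := 2) (by decide) h1 h2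
  obtain ⟨m13, hm13, hle13, h13⟩ := pair hA hl (i := 1) (j := 3) (by decide) h1 h3
  obtain ⟨m23, hm23, hle23, h23⟩ := pair hA hl (i := 2) (j := 3) (by decide) h2 h3
  obtain ⟨M012, hM012, hl012, h012⟩ := triple hA hl (i := 0) (j := 1) (k := 2) (by decide)
    (by decide) (by decide) h0 h1 h2 hb0 hb1 hb2 h01 h02 h12 hm01 hm02 hm12
  obtain ⟨M013, hM013, hl013, h013⟩ := triple hA hl (i := 0) (j := 1) (k := 3) (by decide)
    (by decide) (by decide) h0 h1 h3 hb0 hb1 hb3 h01 h03 h13 hm01 hm03 hm13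
  obtain ⟨M023, hM023, hl023, h023⟩ := triple hA hl (i := 0) (j := 2) (k := 3) (by decide)
    (by decide) (by decide) h0 h2 h3 hb0 hb2 hb3 h02 h03 h23 hm02 hm03 hm23
  obtain ⟨M123, hM123, hl123, h123⟩ := triple hA hl (i := 1) (j := 2) (k := 3) (by decide)
    (by decide) (by decide) h1 h2 h3 hb1 hb2 hb3 h12 h13 h23 hm12 hm13 hm23
  have e1 := mem_spec_iff.mp hμ
  have e2 := mem_spec_iff.mp hl.1
  rw [full4, h0, h1, h2, h3, h01, h02, h03, h12, h13, h23, h012, h013, h023, h123] at e1 e2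
  have hu : μ - l ≠ 0 := sub_ne_zero.mpr hne
  have h4 : (μ - l) * ((μ - l) ^ 3 - ((b0 + b1 + b2 + b3 : ℝ) : ℂ) * (μ - l) ^ 2 +
      ((m01 + m02 + m03 + m12 + m13 + m23 : ℝ) : ℂ) * (μ - l) -
      ((M012 + M013 + M023 + M123 : ℝ) : ℂ)) = 0 := by
    push_cast at e1 e2 ⊢
    linear_combination e1 - e2
  rcases mul_eq_zero.mp h4 with h5 | h5
  · exact absurd h5 hu
  · have q01 := mul_nonneg hm01 (add_nonneg hb0 hb1)
    have q02 := mul_nonneg hm02 (add_nonneg hb0 hb2)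
    have q03 := mul_nonneg hm03 (add_nonneg hb0 hb3)
    have q12 := mul_nonneg hm12 (add_nonneg hb1 hb2)
    have q13 := mul_nonneg hm13 (add_nonneg hb1 hb3)
    have q23 := mul_nonneg hm23 (add_nonneg hb2 hb3)
    have hle : M012 + M013 + M023 + M123 +
        (m01 * (b0 + b1) + m02 * (b0 + b2) + m03 * (b0 + b3) + m12 * (b1 + b2) + m13 * (b1 + b3) +
          m23 * (b2 + b3)) ≤ (b0 + b1 + b2 + b3) * (m01 + m02 + m03 + m12 + m13 + m23) := by
      nlinarith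
    have hre : 0 < (μ - l).re := by
      refine re_pos_cubic (e1 := b0 + b1 + b2 + b3) (e2 := m01 + m02 + m03 + m12 + m13 + m23)
        (e3 := M012 + M013 + M023 + M123) (by linarith) (by linarith) (by linarith)
        (by linarith) ?_ hu h5
      intro hpos
      by_contra hcon
      have key : ∀ {m x y : ℝ}, 0 ≤ m → 0 ≤ x → 0 ≤ y → m ≤ x * y → m * (x + y) ≤ 0 → m ≤ 0 := by
        intro m x y hm hx hy hxy hz
        by_contra hc
        have hm0 : 0 < m := not_le.mp hc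
        have hs : x + y ≤ 0 := by
          by_contra hc2
          have := mul_pos hm0 (not_le.mp hc2)
          linarith
        have hx0 : x = 0 := by linarith
        rw [hx0] at hxy
        linarith
      have z01 := key hm01 hb0 hb1 hle01 (by linarith)
      have z02 := key hm02 hb0 hb2 hle02 (by linarith)
      have z03 := key hm03 hb0 hb3 hle03 (by linarith)
      have z12 := key hm12 hb1 hb2 hle12 (by linarith)
      have z13 := key hm13 hb1 hb3 hle13 (by linarith)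
      have z23 := key hm23 hb2 hb3 hle23 (by linarith)
      linarith
    rw [Complex.abs_arg_lt_pi_div_two_iff]
    exact Or.inl hre

end Pool.Agent.Y343.Tau
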