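import Pool.Agent.Y343.Tau.Alg
import Pool.Agent.Y343.Tau.Defs

/-! Omega-matrices of order at most four. -/

namespace Pool.Agent.Y343.Tau

open Matrix

variable {n : ℕ}

theorem shift_apply {k : ℕ} (A : Matrix (Fin n) (Fin n) ℂ) (f : Fin k → Fin n) (x : ℂ)
    (a b : Fin k) : (A.submatrix f f - x • (1 : Matrix (Fin k) (Fin k) ℂ)) a b =
      A (f a) (f b) - if a = b then x else 0 := by
  by_cases h : a = b
  · subst h; simp
  · simp [h, Matrix.one_apply_ne h]

theorem det1 (A : Matrix (Fin n) (Fin n) ℂ) (i : Fin n) (x : ℂ) :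
    (A.submatrix (![i] : Fin 1 → Fin n) ![i] - x • (1 : Matrix (Fin 1) (Fin 1) ℂ)).det =
      A i i - x := by
  rw [Matrix.det_fin_one, shift_apply]
  simp

theorem det2 (A : Matrix (Fin n) (Fin n) ℂ) (i j : Fin n) (x : ℂ) :
    (A.submatrix (![i, j] : Fin 2 → Fin n) ![i, j] - x • (1 : Matrix (Fin 2) (Fin 2) ℂ)).det =
      (A i i - x) * (A j j - x) - A i j * A j i := by
  rw [Matrix.det_fin_two]
  simp only [shift_apply]
  simp

theorem det3 (A : Matrix (Fin n) (Fin n) ℂ) (i j k : Fin n) (x : ℂ) :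
    (A.submatrix (![i, j, k] : Fin 3 → Fin n) ![i, j, k] - x • (1 : Matrix (Fin 3) (Fin 3) ℂ)).det =
      (A i i - x) * (A j j - x) * (A k k - x) - (A i i - x) * (A j k * A k j) -
        (A j j - x) * (A i k * A k i) - (A k k - x) * (A i j * A j i) +
        (A i j * A j k * A k i + A i k * A k j * A j i) := by
  rw [Matrix.det_fin_three]
  simp only [shift_apply]
  simp
  ring

theorem inj1 (i : Fin n) : Function.Injective (![i] : Fin 1 → Fin n) := by
  intro x y _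
  exact Subsingleton.elim _ _

theorem least1 {A : Matrix (Fin n) (Fin n) ℂ} {i : Fin n} {a : ℝ} (h : A i i = (a : ℂ)) :
    IsLeast {r : ℝ | (r : ℂ) ∈ spectrum ℂ (A.submatrix (![i] : Fin 1 → Fin n) ![i])} a := by
  constructor
  · show (a : ℂ) ∈ spectrum ℂ _
    rw [mem_spec_iff, det1, h, sub_self]
  · intro x hx
    have hx2 : (x : ℂ) ∈ spectrum ℂ (A.submatrix (![i] : Fin 1 → Fin n) ![i]) := hx
    rw [mem_spec_iff, det1, h] at hx2
    have h2 : a = x := by exact_mod_cast sub_eq_zero.mp hx2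
    exact h2.le

/-- diagonal entries of an omega-matrix are real and at least `l(A)` -/
theorem diag {A : Matrix (Fin n) (Fin n) ℂ} (hA : IsOmega A) {l : ℝ}
    (hl : IsLeast {r : ℝ | (r : ℂ) ∈ spectrum ℂ A} l) (i : Fin n) :
    ∃ b : ℝ, 0 ≤ b ∧ A i i = ((b + l : ℝ) : ℂ) := by
  obtain ⟨a, ha⟩ := hA.least (![i] : Fin 1 → Fin n) (inj1 i)
  have h1 : A i i = (a : ℂ) := by
    have := mem_spec_iff.mp ha.1
    rw [det1] at this
    exact sub_eq_zero.mp this
  have hle : l ≤ a := by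
    refine hA.least_le (![i] : Fin 1 → Fin n) (inj1 i) id Function.injective_id
      (fun x => ⟨_, rfl⟩) ?_ ha
    simpa using hl
  refine ⟨a - l, by linarith, ?_⟩
  rw [h1]; congr 1; ring

/-- products of opposite off-diagonal entries -/
theorem pair {A : Matrix (Fin n) (Fin n) ℂ} (hA : IsOmega A) {l : ℝ}
    (hl : IsLeast {r : ℝ | (r : ℂ) ∈ spectrum ℂ A} l) {i j : Fin n} (hij : i ≠ j) {bi bj : ℝ}
    (hi : A i i = ((bi + l : ℝ) : ℂ)) (hj : A j j = ((bj + l : ℝ) : ℂ)) :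
    ∃ m : ℝ, 0 ≤ m ∧ m ≤ bi * bj ∧ A i j * A j i = ((bi * bj - m : ℝ) : ℂ) := by
  have hf : Function.Injective (![i, j] : Fin 2 → Fin n) := by
    intro x y hxy
    fin_cases x <;> fin_cases y <;> simp_all
  obtain ⟨r, hr⟩ := hA.least (![i, j] : Fin 2 → Fin n) hf
  have hlr : l ≤ r := by
    refine hA.least_le (![i, j] : Fin 2 → Fin n) hf id Function.injective_id
      (fun x => ⟨_, rfl⟩) ?_ hr
    simpa using hl
  have hri : r ≤ bi + l :=
    hA.least_le _ (inj1 i) _ hf (fun x => ⟨0, by fin_cases x; rfl⟩) hr (least1 hi)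
  have hrj : r ≤ bj + l :=
    hA.least_le _ (inj1 j) _ hf (fun x => ⟨1, by fin_cases x; rfl⟩) hr (least1 hj)
  have hdet := mem_spec_iff.mp hr.1
  rw [det2, hi, hj] at hdet
  have hp : A i j * A j i = (((bi - (r - l)) * (bj - (r - l)) : ℝ) : ℂ) := by
    push_cast at hdet ⊢
    linear_combination -hdet
  refine ⟨(r - l) * (bi + bj - (r - l)), ?_, ?_, ?_⟩
  · apply mul_nonneg (by linarith)
    linarith
  · nlinarith [mul_nonneg (sub_nonneg.mpr hri) (sub_nonneg.mpr hrj)]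
  · rw [hp]; congr 1; ring

/-- the cyclic products of a triple of indices -/
theorem triple {A : Matrix (Fin n) (Fin n) ℂ} (hA : IsOmega A) {l : ℝ}
    (hl : IsLeast {r : ℝ | (r : ℂ) ∈ spectrum ℂ A} l) {i j k : Fin n} (hij : i ≠ j) (hik : i ≠ k)
    (hjk : j ≠ k) {bi bj bk mij mik mjk : ℝ}
    (hi : A i i = ((bi + l : ℝ) : ℂ)) (hj : A j j = ((bj + l : ℝ) : ℂ))
    (hk : A k k = ((bk + l : ℝ) : ℂ))
    (hbi : 0 ≤ bi) (hbj : 0 ≤ bj) (hbk : 0 ≤ bk)
    (h1 : A i j * A j i = ((bi * bj - mij : ℝ) : ℂ))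
    (h2 : A i k * A k i = ((bi * bk - mik : ℝ) : ℂ))
    (h3 : A j k * A k j = ((bj * bk - mjk : ℝ) : ℂ))
    (hmij : 0 ≤ mij) (hmik : 0 ≤ mik) (hmjk : 0 ≤ mjk) :
    ∃ M : ℝ, 0 ≤ M ∧ M ≤ bi * mjk + bj * mik + bk * mij ∧
      A i j * A j k * A k i + A i k * A k j * A j i =
        ((M + 2 * (bi * bj * bk) - bi * mjk - bj * mik - bk * mij : ℝ) : ℂ) := by
  have hf : Function.Injective (![i, j, k] : Fin 3 → Fin n) := by
    intro x y hxy
    fin_cases x <;> fin_cases y <;> simp_all [eq_comm]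
  obtain ⟨r, hr⟩ := hA.least (![i, j, k] : Fin 3 → Fin n) hf
  have hlr : l ≤ r := by
    refine hA.least_le (![i, j, k] : Fin 3 → Fin n) hf id Function.injective_id
      (fun x => ⟨_, rfl⟩) ?_ hr
    simpa using hl
  have hle1 : ∀ (q : Fin n) (b : ℝ), A q q = ((b + l : ℝ) : ℂ) →
      (∃ x, (![i, j, k] : Fin 3 → Fin n) x = q) → r ≤ b + l := by
    intro q b hq hx
    refine hA.least_le _ (inj1 q) _ hf (fun y => ?_) hr (least1 hq)
    obtain ⟨x, hx⟩ := hx
    exact ⟨x, by rw [hx]; fin_cases y; rfl⟩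
  have hri := hle1 i bi hi ⟨0, rfl⟩
  have hrj := hle1 j bj hj ⟨1, rfl⟩
  have hrk := hle1 k bk hk ⟨2, rfl⟩
  have hr0 := mem_spec_iff.mp hr.1
  rw [det3, h1, h2, h3, hi, hj, hk] at hr0
  set s : ℝ := r - l with hs
  have hs0 : 0 ≤ s := by rw [hs]; linarith
  set q : ℝ := mij + mik + mjk - s * (bi + bj + bk - s) with hq
  have hcyc : A i j * A j k * A k i + A i k * A k j * A j i =
        ((s * q + 2 * (bi * bj * bk) - bi * mjk - bj * mik - bk * mij : ℝ) : ℂ) := by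
    rw [hq, hs]
    push_cast at hr0 ⊢
    linear_combination hr0
  have hq0 : 0 ≤ q := by
    by_contra hcon
    obtain ⟨x, hx, hroot⟩ := neg_root (p := bi + bj + bk - s) (not_le.mp hcon)
    have hmem : (x + l : ℝ) ∈ {r : ℝ | (r : ℂ) ∈ spectrum ℂ (A.submatrix (![i, j, k] : Fin 3 → Fin n) ![i, j, k])} := by
      show ((x + l : ℝ) : ℂ) ∈ spectrum ℂ _
      rw [mem_spec_iff, det3, h1, h2, h3, hcyc, hi, hj, hk]
      have : ((x ^ 2 - (bi + bj + bk - s) * x + q : ℝ) : ℂ) = 0 := by rw [hroot]; simp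
      rw [hq] at this ⊢
      push_cast at this ⊢
      linear_combination -((x : ℂ) - s) * this
    have := hr.2 hmem
    linarith
  refine ⟨s * q, mul_nonneg hs0 hq0, ?_, hcyc⟩
  have e1 : s * q ≤ s * (mij + mik + mjk) := by
    apply mul_le_mul_of_nonneg_left _ hs0
    rw [hq]
    have : 0 ≤ s * (bi + bj + bk - s) := mul_nonneg hs0 (by linarith)
    linarith
  have e2 : s * mjk ≤ bi * mjk := mul_le_mul_of_nonneg_right (by linarith) hmjk
  have e3 : s * mik ≤ bj * mik := mul_le_mul_of_nonneg_right (by linarith) hmik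
  have e4 : s * mij ≤ bk * mij := mul_le_mul_of_nonneg_right (by linarith) hmij
  linarith

end Pool.Agent.Y343.Tau
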